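import Pool.Agent.J4H13.PL.Jobs

/-! Project PL (helper13), job PAIRK. -/

set_option autoImplicit false

open Pool.Agent.J4H13.PL

namespace Pool.Agent.J4H42.PL

open scoped Classical in
theorem t_PAIRK : S_PAIRK := by
  intro n S d hcard _ h0 hd hK
  have hc : Fintype.card (Fin d × Bool) = Fintype.card S := by
    rw [Fintype.card_prod, Fintype.card_fin, Fintype.card_bool, Fintype.card_coe, hcard, mul_comm]
  obtain ⟨e⟩ : Nonempty (Fin d × Bool ≃ S) := ⟨Fintype.equivOfCardEq hc⟩
  refine ⟨fun k => (e (k, false)).1, fun k => (e (k, true)).1, ?_, ?_⟩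
  · intro I hI
    set T : Finset (VV n) := (I ×ˢ (Finset.univ : Finset Bool)).image fun p => (e p).1 with hT
    have hTc : T.card = 2 * I.card := by
      have hinj : Function.Injective fun p : Fin d × Bool => (e p).1 :=
        Subtype.val_injective.comp e.injective
      rw [hT, Finset.card_image_of_injective _ hinj,
        Finset.card_product, Finset.card_univ, Fintype.card_bool, mul_comm]
    have hTS : T ⊆ S := by
      intro v hv
      rw [hT, Finset.mem_image] at hv
      obtain ⟨p, -, rfl⟩ := hv
      exact (e p).2
    have hTe : ((fun k => (e (k, false)).1) '' (I : Set (Fin d)) ∪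
        (fun k => (e (k, true)).1) '' I : Set (VV n)) = (T : Set (VV n)) := by
      ext v
      simp only [hT, Set.mem_union, Set.mem_image, Finset.mem_coe, Finset.mem_image,
        Finset.mem_product, Finset.mem_univ, and_true]
      constructor
      · rintro (⟨k, hk, rfl⟩ | ⟨k, hk, rfl⟩)
        · exact ⟨(k, false), hk, rfl⟩
        · exact ⟨(k, true), hk, rfl⟩
      · rintro ⟨⟨k, b⟩, hk, rfl⟩
        cases b
        · exact Or.inl ⟨k, hk, rfl⟩
        · exact Or.inr ⟨k, hk, rfl⟩
    rw [hTe]
    have hle : Submodule.span ℂ (T : Set (VV n)) ≤ Submodule.span ℂ (S : Set (VV n)) :=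
      Submodule.span_mono (by exact_mod_cast hTS)
    rcases hle.eq_or_lt with h | h
    · rw [h]
      have : I.card ≤ d := by simpa using Finset.card_le_univ I
      omega
    · have hne : Submodule.span ℂ (T : Set (VV n)) ≠ ⊥ := by
        intro hb
        obtain ⟨k, hk⟩ := hI
        have h1 : (e (k, false)).1 ∈ T := by
          rw [hT, Finset.mem_image]
          exact ⟨(k, false), by simp [hk], rfl⟩
        have h2 : (e (k, false)).1 ∈ Submodule.span ℂ (T : Set (VV n)) :=
          Submodule.subset_span (by exact_mod_cast h1)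
        rw [hb, Submodule.mem_bot] at h2
        exact h0 (h2 ▸ (e (k, false)).2)
      have h3 := hK _ hne h
      have h4 : T ⊆ S.filter fun l => l ∈ Submodule.span ℂ (T : Set (VV n)) := by
        intro v hv
        rw [Finset.mem_filter]
        exact ⟨hTS hv, Submodule.subset_span (by exact_mod_cast hv)⟩
      have h5 := Finset.card_le_card h4
      omega
  · intro M _ F
    rw [← Finset.prod_coe_sort S F, ← e.prod_comp, Fintype.prod_prod_type]
    refine Finset.prod_congr rfl fun k _ => ?_
    rw [Fintype.prod_bool, mul_comm]

end Pool.Agent.J4H42.PL
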