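import Pool.Agent.J4H13.PL.Jobs

/-! Project PL (helper13), job REGTWO. -/

set_option autoImplicit false

open FF Pool.Agent.J4H13.PL Pool.Agent.J4H13.LA Pool.Agent.W602.GT Pool.Agent.W603.LV

namespace Pool.Agent.J4H42.PL

section

variable {K : Type} [Field K] [Algebra ℂ K]

lemma lf_eq_ev (X : Fin (2 + 1) → K) (v : VV 2) : Pool.Agent.J4H13.PL.lf X v = ev X v := rfl

lemma ge_ord {P : Place ℂ K} {a : ℤ} {f : K} (h : Ge P a f) (hf : f ≠ 0) : a ≤ P.ord f :=
  h.resolve_left hf

/-- the local condition at a place -/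
theorem br_two {d : ℕ} (hd : 3 ≤ d) {l : Fin (2 * d) → V3}
    (hl : ∀ i j, i ≠ j → LinearIndependent ℂ ![l i, l j]) {Q : P3}
    (hQ0 : Q ≠ 0) (hQ : Q.IsHomogeneous (d - 3))
    (hmult : ∀ W : Submodule ℂ V3, Module.finrank ℂ W ≤ 2 → Q ∈ IW W ^ ((thr l W).card / 2 - 1))
    (X : Fin 3 → K) (hne : ∀ v : V3, v ≠ 0 → ev X v ≠ 0) (hQX : MvPolynomial.aeval X Q ≠ 0)
    (P : Place ℂ K) :
    ∃ (b : Fin 3 → V3) (c : K), LinearIndependent ℂ b ∧ c ≠ 0 ∧
      (∀ k, 0 ≤ P.ord (ev (fun i => c * X i) (b k))) ∧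
      (∑ i, P.ord (ev (fun i => c * X i) (l i))) + 
        (if ∃ k, 0 < P.ord (ev (fun i => c * X i) (b k)) then 1 else 0) ≤
        2 * (P.ord (c ^ (d - 3) * MvPolynomial.aeval X Q) +
          ∑ k, P.ord (ev (fun i => c * X i) (b k))) := by
  classical
  have hX : ∀ i, X i ≠ 0 := by
    intro i
    rw [← ev_single X i]
    apply hne
    intro h
    have := congrFun h i
    simp at this
  have hl0 : ∀ i : Fin (2 * d), l i ≠ 0 := by
    intro i
    obtain ⟨j, hj⟩ : ∃ j : Fin (2 * d), i ≠ j := by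
      by_cases h0 : i = ⟨0, by omega⟩
      · refine ⟨⟨1, by omega⟩, ?_⟩
        rw [h0]
        intro h
        simp at h
      · exact ⟨_, h0⟩
    exact (hl i j hj).ne_zero 0
  obtain ⟨c, hc, hreg, i₀, hi₀⟩ := exists_scale P hX
  obtain ⟨z, hz⟩ : ∃ z : Fin 3 → K, z = fun i => c * X i := ⟨_, rfl⟩
  have hzreg : ∀ i, Ge P 0 (z i) := by
    intro i
    rw [hz]
    exact hreg i
  have hzi₀ : P.ord (z i₀) = 0 := by
    rw [hz]
    exact hi₀
  have hevz : ∀ w, ev z w = c * ev X w := by
    intro w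
    rw [hz, ev_scale]
  have hzne : ∀ w : V3, w ≠ 0 → ev z w ≠ 0 := by
    intro w hw
    rw [hevz]
    exact mul_ne_zero hc (hne w hw)
  have hQz : c ^ (d - 3) * MvPolynomial.aeval X Q = MvPolynomial.aeval z Q := by
    have h4 := Pool.Agent.Helper397.HK.aeval_smul_of_homog hQ c X
    rw [← h4, hz]
    rfl
  have hQz0 : MvPolynomial.aeval z Q ≠ 0 := by
    rw [← hQz]
    exact mul_ne_zero (pow_ne_zero _ hc) hQX
  -- the order of the denominator
  have hthr : ∑ i, P.ord (ev z (l i)) = ∑ i ∈ thr l (WP P z), P.ord (ev z (l i)) := by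
    symm
    apply Finset.sum_subset (Finset.subset_univ _)
    intro i _ hi
    rw [mem_thr] at hi
    exact ord_of_notMem hzreg hi
  have hWfin : Module.finrank ℂ (WP P z) ≤ 2 := by
    have he₀ : (Pi.single i₀ 1 : V3) ∉ WP P z := by
      intro h
      rw [mem_WP, ev_single] at h
      rcases h with h | h
      · exact mul_ne_zero hc (hX i₀) (by rw [hz] at h; exact h)
      · omega
    have h1 : WP P z < ⊤ := lt_top_iff_ne_top.2 fun h => he₀ (by rw [h]; trivial)
    have h2 := Submodule.finrank_lt_finrank_of_lt h1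
    rw [finrank_top] at h2
    have h3 : Module.finrank ℂ V3 = 3 := by simp
    omega
  have hQm := hmult (WP P z) hWfin
  obtain ⟨r, hr⟩ : ∃ r, r = (thr l (WP P z)).card := ⟨_, rfl⟩
  rw [← hr] at hQm
  by_cases hW : WP P z = ⊥
  · -- no linear form is positive
    have h3 : thr l (WP P z) = ∅ := by
      rw [Finset.eq_empty_iff_forall_notMem]
      intro i hi
      rw [mem_thr, hW, Submodule.mem_bot] at hi
      exact hl0 i hi
    have h7 : Ge P 0 (MvPolynomial.aeval z Q) := by
      have := ge_of_mem_pow hzreg (W := (⊥ : Submodule ℂ V3)) (a := 0) (m := 0) (Q := Q)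
        (fun w hw => by
          rw [(Submodule.mem_bot ℂ).1 hw, ev_zero]
          exact Ge.zero) (by rw [pow_zero, Ideal.one_eq_top]; trivial)
      simpa using this
    have h8 := ge_ord h7 hQz0
    have hb : LinearIndependent ℂ (fun k : Fin 3 => (Pi.single k 1 : V3)) := by
      have := (Pi.basisFun ℂ (Fin 3)).linearIndependent
      convert this using 1
      funext k
      rw [Pi.basisFun_apply]
    refine ⟨fun k => Pi.single k 1, c, hb, hc, ?_, ?_⟩
    · intro k
      rw [← hz]
      have h9 : (Pi.single k 1 : V3) ∉ WP P z := by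
        rw [hW, Submodule.mem_bot]
        exact hb.ne_zero k
      rw [ord_of_notMem hzreg h9]
    · have h10 : ∀ k : Fin 3, P.ord (ev z (Pi.single k 1)) = 0 := by
        intro k
        have h9 : (Pi.single k 1 : V3) ∉ WP P z := by
          rw [hW, Submodule.mem_bot]
          exact hb.ne_zero k
        exact ord_of_notMem hzreg h9
      rw [← hz, hthr, h3, Finset.sum_empty, hQz]
      have h11 : ¬ ∃ k : Fin 3, 0 < P.ord (ev z (Pi.single k 1)) := by
        rintro ⟨k, hk⟩
        rw [h10] at hk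
        omega
      rw [if_neg h11, Finset.sum_eq_zero fun k _ => h10 k]
      omega
  · obtain ⟨b, hb, hb0, ha0, hab, hb1, hmin, hmax⟩ := exists_coords hzreg hzne hzi₀ hW
    refine ⟨b, c, hb, hc, ?_, ?_⟩
    · rw [← hz]
      intro k
      fin_cases k
      · exact hb0.ge
      · exact ha0
      · exact le_trans (by omega) hb1
    rw [← hz, hQz]
    obtain ⟨α, hα⟩ : ∃ α, α = P.ord (ev z (b 1)) := ⟨_, rfl⟩
    obtain ⟨β, hβ⟩ : ∃ β, β = P.ord (ev z (b 2)) := ⟨_, rfl⟩
    rw [← hα] at ha0 hab hmin hmax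
    rw [← hβ] at hab hb1
    have hbne : ∀ j, ev z (b j) ≠ 0 := fun j => hzne _ (hb.ne_zero j)
    have h4 : Ge P (((r / 2 - 1 : ℕ) : ℤ) * α) (MvPolynomial.aeval z Q) := by
      refine ge_of_mem_pow hzreg ?_ hQm
      intro w hw
      by_cases hw0 : w = 0
      · rw [hw0, ev_zero]
        exact Ge.zero
      · exact Or.inr (hmin w hw hw0)
    have h4' := ge_ord h4 hQz0
    -- the denominator
    have h5 : ∑ i, P.ord (ev z (l i)) ≤ r * α + (β - α) := by
      rw [hthr]
      have h6 : ∀ i ∈ thr l (WP P z), P.ord (ev z (l i)) ≤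
          α + if l i ∈ Submodule.span ℂ {b 2} then β - α else 0 := by
        intro i hi
        rw [mem_thr] at hi
        by_cases h7 : l i ∈ Submodule.span ℂ {b 2}
        · rw [if_pos h7]
          obtain ⟨t, ht⟩ := Submodule.mem_span_singleton.1 h7
          have ht0 : t ≠ 0 := by
            rintro rfl
            rw [zero_smul] at ht
            exact hl0 i ht.symm
          rw [← ht, ev_smul, P.ord_mul ((map_ne_zero _).2 ht0) (hbne 2), P.ord_const ht0, ← hβ]
          omega
        · rw [if_neg h7]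
          have := hmax _ hi h7
          omega
      have h8 : ((thr l (WP P z)).filter fun i => l i ∈ Submodule.span ℂ {b 2}).card ≤ 1 := by
        rw [Finset.card_le_one]
        intro i hi j hj
        by_contra hij
        rw [Finset.mem_filter] at hi hj
        obtain ⟨s, hs⟩ := Submodule.mem_span_singleton.1 hi.2
        obtain ⟨t, ht⟩ := Submodule.mem_span_singleton.1 hj.2
        have h9 := LinearIndependent.pair_iff.1 (hl i j hij) t (-s) (by
          rw [← hs, ← ht, smul_smul, neg_smul, smul_smul, mul_comm t s, add_neg_cancel])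
        apply hl0 j
        rw [← ht, h9.1, zero_smul]
      calc ∑ i ∈ thr l (WP P z), P.ord (ev z (l i)) ≤ ∑ i ∈ thr l (WP P z),
            (α + if l i ∈ Submodule.span ℂ {b 2} then β - α else 0) := Finset.sum_le_sum h6
        _ = r * α + ((thr l (WP P z)).filter fun i => l i ∈ Submodule.span ℂ {b 2}).card *
              (β - α) := by
            rw [Finset.sum_add_distrib, Finset.sum_const, ← Finset.sum_filter, Finset.sum_const, hr]
            simp only [nsmul_eq_mul]
        _ ≤ r * α + (β - α) := by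
            have h9 : (((thr l (WP P z)).filter fun i => l i ∈ Submodule.span ℂ {b 2}).card : ℤ) ≤ 1 := by
              exact_mod_cast h8
            have h10 : 0 ≤ β - α := by omega
            nlinarith
    have h13 : (r : ℤ) ≤ 2 * ((r / 2 - 1 : ℕ) : ℤ) + 3 := by
      have : r ≤ 2 * (r / 2 - 1) + 3 := by omega
      exact_mod_cast this
    have h14 : (r : ℤ) * α ≤ (2 * ((r / 2 - 1 : ℕ) : ℤ) + 3) * α :=
      mul_le_mul_of_nonneg_right h13 ha0
    have h15 : (2 * ((r / 2 - 1 : ℕ) : ℤ) + 3) * α = 2 * (((r / 2 - 1 : ℕ) : ℤ) * α) + 3 * α := by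
      ring
    have h16 : (if ∃ k, 0 < P.ord (ev z (b k)) then (1 : ℤ) else 0) ≤ 1 := by
      split_ifs <;> omega
    rw [Fin.sum_univ_three, hb0, ← hα, ← hβ]
    omega

end

open scoped Classical in
theorem t_REGTWO : S_REGTWO := by
  intro hAEV S d hd hcard hPw hW
  have hc : Fintype.card (Fin (2 * d)) = Fintype.card S := by
    rw [Fintype.card_fin, Fintype.card_coe, hcard]
  obtain ⟨e⟩ : Nonempty (Fin (2 * d) ≃ S) := ⟨Fintype.equivOfCardEq hc⟩
  obtain ⟨l, hldef⟩ : ∃ l : Fin (2 * d) → V3, l = fun i => (e i).1 := ⟨_, rfl⟩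
  have hl : ∀ i j, i ≠ j → LinearIndependent ℂ ![l i, l j] := by
    intro i j hij
    rw [hldef]
    refine hPw _ (e i).2 _ (e j).2 ?_
    intro h
    exact hij (e.injective (Subtype.ext h))
  have hthr : ∀ W : Submodule ℂ V3, Module.finrank ℂ W ≤ 2 → (thr l W).card ≤ 2 * d - 3 := by
    intro W hWf
    refine le_trans ?_ (hW W hWf)
    refine Finset.card_le_card_of_injOn (fun i => (e i).1) ?_ ?_
    · intro i hi
      have hi' : i ∈ thr l W := hi
      rw [mem_thr, hldef] at hi'
      rw [Finset.mem_coe, Finset.mem_filter]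
      exact ⟨(e i).2, hi'⟩
    · intro i _ j _ hij
      exact e.injective (Subtype.ext hij)
  obtain ⟨Q, hQ0, hQ, hmult⟩ := key hd hl hthr
  have hb : LinearIndependent ℂ (fun k : Fin (2 + 1) => (Pi.single k 1 : VV 2)) := by
    have := (Pi.basisFun ℂ (Fin 3)).linearIndependent
    convert this using 1
    funext k
    rw [Pi.basisFun_apply]
  refine ⟨2, d - 3, fun k => Pi.single k 1, Q, by omega, hb, hQ0, hQ, by omega, ?_⟩
  intro K _ _ X hX P
  obtain ⟨h1, h2⟩ := hAEV K 2 X hX
  obtain ⟨b, c, hbi, hc0, hpos, hsum⟩ := br_two hd hl hQ0 hQ hmult X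
    (fun v hv => by
      have := h1 v hv
      rwa [lf_eq_ev] at this) (h2 _ Q hQ hQ0) P
  have hY : ∀ k : Fin 3, c * ∑ j, algebraMap ℂ K (b k j) *
      Pool.Agent.J4H13.PL.lf X (Pi.single j 1) = ev (fun i => c * X i) (b k) := by
    intro k
    rw [ev_scale]
    congr 1
    unfold ev
    refine Finset.sum_congr rfl fun j _ => ?_
    rw [lf_eq_ev, ev_single]
  refine ⟨Matrix.of b, c, fun k => ev (fun i => c * X i) (b k), ?_, hc0, ?_, ?_, hpos, ?_⟩
  · have h6 := Matrix.linearIndependent_rows_iff_isUnit.1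
      (show LinearIndependent ℂ (Matrix.of b).row from hbi)
    exact ((Matrix.isUnit_iff_isUnit_det _).1 h6).ne_zero
  · intro k
    exact (hY k).symm
  · intro k
    show ev (fun i => c * X i) (b k) ≠ 0
    rw [ev_scale]
    have := h1 (b k) (hbi.ne_zero k)
    rw [lf_eq_ev] at this
    exact mul_ne_zero hc0 this
  · have h7 : ∑ v ∈ S, P.ord (c * Pool.Agent.J4H13.PL.lf X v) =
        ∑ i, P.ord (ev (fun i => c * X i) (l i)) := by
      rw [← Finset.sum_coe_sort S, ← e.sum_comp]
      refine Finset.sum_congr rfl fun i _ => ?_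
      rw [ev_scale, hldef, lf_eq_ev]
    rw [h7]
    exact hsum

end Pool.Agent.J4H42.PL
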