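import Pool.Agent.J4H13.PL.Jobs

/-! Project PL (helper13), job RATTWO. -/

set_option autoImplicit false

open Pool.Agent.J4H13.PL Pool.Agent.J4H13.LA

namespace Pool.Agent.J4H42.PL

section

variable {K : Type} [Field K] [Algebra ℂ K] {X : Fin 3 → K} (hX0 : X 0 = 1)
  (hne : ∀ v : V3, v ≠ 0 → ev X v ≠ 0)

lemma ev_mem_adjoin {L : IntermediateField ℂ K} (hX : ∀ k, X k ∈ L) (v : V3) : ev X v ∈ L := by
  unfold ev
  exact sum_mem fun i _ => mul_mem (L.algebraMap_mem _) (hX i)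

include hX0 hne in
lemma lin_mem' {m : Fin 3 → V3} (hm : LinearIndependent ℂ m) {L : IntermediateField ℂ K}
    (ht : ev X (m 1) / ev X (m 0) ∈ L) (hu : ev X (m 2) / ev X (m 0) ∈ L) :
    ∀ k, X k ∈ L := by
  classical
  have hM0 : ev X (m 0) ≠ 0 := hne _ (hm.ne_zero 0)
  have hall : ∀ w : V3, ∃ z ∈ L, ev X w = ev X (m 0) * z := by
    intro w
    let B : Module.Basis (Fin 3) ℂ V3 := basisOfLinearIndependentOfCardEqFinrank hm (by simp)
    have hB : ∀ i, B i = m i := by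
      intro i
      exact congrFun (coe_basisOfLinearIndependentOfCardEqFinrank hm _) i
    have hw : w = B.repr w 0 • m 0 + B.repr w 1 • m 1 + B.repr w 2 • m 2 := by
      conv_lhs => rw [← B.sum_repr w]
      rw [Fin.sum_univ_three, hB, hB, hB]
    refine ⟨algebraMap ℂ K (B.repr w 0) + algebraMap ℂ K (B.repr w 1) *
      (ev X (m 1) / ev X (m 0)) + algebraMap ℂ K (B.repr w 2) *
      (ev X (m 2) / ev X (m 0)), ?_, ?_⟩
    · exact add_mem (add_mem (L.algebraMap_mem _) (mul_mem (L.algebraMap_mem _) ht))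
        (mul_mem (L.algebraMap_mem _) hu)
    · conv_lhs => rw [hw]
      rw [ev_add, ev_add, ev_smul, ev_smul, ev_smul]
      field_simp
  obtain ⟨z, hz, h0⟩ := hall (Pi.single 0 1)
  rw [ev_single, hX0] at h0
  have hM : ev X (m 0) ∈ L := by
    rw [eq_inv_of_mul_eq_one_left h0.symm]
    exact inv_mem hz
  intro k
  obtain ⟨z, hz, h⟩ := hall (Pi.single k 1)
  rw [ev_single] at h
  rw [h]
  exact mul_mem hM hz

include hne in
lemma prod_mem' {m₀ m₁ : V3} (hm₀ : m₀ ≠ 0) {L : IntermediateField ℂ K}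
    (ht : ev X m₁ / ev X m₀ ∈ L) (T : Finset V3) (hT0 : ∀ v ∈ T, v ≠ 0)
    (hT : ∀ v ∈ T, v ∈ Submodule.span ℂ {m₀, m₁}) :
    ∃ c ∈ L, c ≠ 0 ∧ ∏ v ∈ T, ev X v = ev X m₀ ^ T.card * c := by
  classical
  have hM0 : ev X m₀ ≠ 0 := hne _ hm₀
  induction T using Finset.induction_on with
  | empty => exact ⟨1, one_mem L, one_ne_zero, by simp⟩
  | insert a T ha ih =>
    obtain ⟨c, hc, hc0, h⟩ := ih (fun i hi => hT0 i (Finset.mem_insert_of_mem hi))
      fun i hi => hT i (Finset.mem_insert_of_mem hi)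
    obtain ⟨α, β, hαβ⟩ := Submodule.mem_span_pair.1 (hT a (Finset.mem_insert_self a T))
    have h1 : ev X a = ev X m₀ * (algebraMap ℂ K α + algebraMap ℂ K β *
        (ev X m₁ / ev X m₀)) := by
      rw [← hαβ, ev_add, ev_smul, ev_smul]
      field_simp
    refine ⟨(algebraMap ℂ K α + algebraMap ℂ K β *
        (ev X m₁ / ev X m₀)) * c, mul_mem (add_mem (L.algebraMap_mem _)
          (mul_mem (L.algebraMap_mem _) ht)) hc, ?_, ?_⟩
    · refine mul_ne_zero ?_ hc0
      intro h2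
      rw [h2, mul_zero] at h1
      exact hne _ (hT0 a (Finset.mem_insert_self a T)) h1
    · rw [Finset.prod_insert ha, Finset.card_insert_of_notMem ha, h, h1]
      ring

include hX0 hne in
/-- all lines but one pass through a point -/
theorem one' {m : Fin 3 → V3} (hm : LinearIndependent ℂ m) {d : ℕ} (T : Finset V3)
    (hT0 : ∀ v ∈ T, v ≠ 0) (hT : ∀ v ∈ T, v ∈ Submodule.span ℂ {m 0, m 1})
    (hcard : T.card + 1 = 2 * d) :
    GoodP (n := 2) X ((∏ v ∈ T, ev X v) * ev X (m 2)) := by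
  classical
  have hM0 : ev X (m 0) ≠ 0 := hne _ (hm.ne_zero 0)
  obtain ⟨t, ht⟩ : ∃ t, t = ev X (m 1) / ev X (m 0) := ⟨_, rfl⟩
  have htL : t ∈ IntermediateField.adjoin ℂ (Set.range ![t]) :=
    IntermediateField.subset_adjoin _ _ ⟨0, rfl⟩
  obtain ⟨c, hc, hc0, hprod⟩ := prod_mem' hne (hm.ne_zero 0) (by rw [← ht]; exact htL) T hT0 hT
  have hXmem : ∀ k, X k ∈ IntermediateField.adjoin ℂ (Set.range X) := fun k =>
    IntermediateField.subset_adjoin _ _ ⟨k, rfl⟩
  refine ⟨1, ![t], ev X (m 2) / ev X (m 0), c, ev X (m 0) ^ d, le_refl _, hc, hc0,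
    pow_mem (ev_mem_adjoin hXmem _) d, pow_ne_zero _ hM0, ?_, ?_⟩
  · have h1 : (ev X (m 0) ^ d) ^ 2 = ev X (m 0) ^ T.card * ev X (m 0) := by
      rw [← pow_mul, mul_comm d 2, ← hcard, pow_succ]
    rw [hprod, h1]
    field_simp
  · apply lin_mem' hX0 hne hm
    · rw [← ht]
      exact IntermediateField.subset_adjoin _ _ (Or.inr ⟨0, rfl⟩)
    · exact IntermediateField.subset_adjoin _ _ (Or.inl rfl)

include hX0 hne in
/-- all lines but two pass through a point -/
theorem two' {m : Fin 3 → V3} (hm : LinearIndependent ℂ m) {d : ℕ} (T : Finset V3)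
    (hT0 : ∀ v ∈ T, v ≠ 0) (hT : ∀ v ∈ T, v ∈ Submodule.span ℂ {m 0, m 1})
    (hcard : T.card + 2 = 2 * d) {m' : V3} (hm' : LinearIndependent ℂ ![m', m 2]) :
    GoodP (n := 2) X ((∏ v ∈ T, ev X v) * (ev X (m 2) * ev X m')) := by
  classical
  have hM0 : ev X (m 0) ≠ 0 := hne _ (hm.ne_zero 0)
  have hM2 : ev X (m 2) ≠ 0 := hne _ (hm.ne_zero 2)
  have hM' : ev X m' ≠ 0 := hne _ (hm'.ne_zero 0)
  obtain ⟨t, ht⟩ : ∃ t, t = ev X (m 1) / ev X (m 0) := ⟨_, rfl⟩
  have htL : t ∈ IntermediateField.adjoin ℂ (Set.range ![t]) :=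
    IntermediateField.subset_adjoin _ _ ⟨0, rfl⟩
  obtain ⟨c, hc, hc0, hprod⟩ := prod_mem' hne (hm.ne_zero 0) (by rw [← ht]; exact htL) T hT0 hT
  have hXmem : ∀ k, X k ∈ IntermediateField.adjoin ℂ (Set.range X) := fun k =>
    IntermediateField.subset_adjoin _ _ ⟨k, rfl⟩
  obtain ⟨s, hs⟩ : ∃ s, s = ev X (m 2) / ev X m' := ⟨_, rfl⟩
  have hs0 : s ≠ 0 := hs ▸ div_ne_zero hM2 hM'
  refine ⟨1, ![t], s, c, ev X (m 0) ^ (d - 1) * ev X m', le_refl _, hc, hc0,
    mul_mem (pow_mem (ev_mem_adjoin hXmem _) _) (ev_mem_adjoin hXmem _),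
    mul_ne_zero (pow_ne_zero _ hM0) hM', ?_, ?_⟩
  · have h1 : (ev X (m 0) ^ (d - 1)) ^ 2 = ev X (m 0) ^ T.card := by
      rw [← pow_mul]
      congr 1
      omega
    rw [mul_pow, hprod, h1, hs]
    field_simp
  · obtain ⟨u, hu⟩ : ∃ u, u = ev X (m 2) / ev X (m 0) := ⟨_, rfl⟩
    have hMu : ev X (m 2) = ev X (m 0) * u := by
      rw [hu]
      field_simp
    let B : Module.Basis (Fin 3) ℂ V3 := basisOfLinearIndependentOfCardEqFinrank hm (by simp)
    have hB : ∀ i, B i = m i := by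
      intro i
      exact congrFun (coe_basisOfLinearIndependentOfCardEqFinrank hm _) i
    obtain ⟨α, hα⟩ : ∃ α, α = B.repr m' 0 := ⟨_, rfl⟩
    obtain ⟨β, hβ⟩ : ∃ β, β = B.repr m' 1 := ⟨_, rfl⟩
    obtain ⟨γ, hγ⟩ : ∃ γ, γ = B.repr m' 2 := ⟨_, rfl⟩
    have hw : m' = α • m 0 + β • m 1 + γ • m 2 := by
      conv_lhs => rw [← B.sum_repr m']
      rw [Fin.sum_univ_three, hB, hB, hB, hα, hβ, hγ]
    obtain ⟨δ, hδ⟩ : ∃ δ, δ = algebraMap ℂ K α + algebraMap ℂ K β * t := ⟨_, rfl⟩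
    have hev' : ev X m' = ev X (m 0) * (algebraMap ℂ K γ * u + δ) := by
      rw [hδ]
      conv_lhs => rw [hw]
      rw [ev_add, ev_add, ev_smul, ev_smul, ev_smul, hMu, ht]
      field_simp
      ring
    have hδ0 : δ ≠ 0 := by
      intro h
      have h1 : ev X (α • m 0 + β • m 1) = 0 := by
        rw [ev_add, ev_smul, ev_smul]
        have h2 : ev X (m 0) * δ = 0 := by rw [h, mul_zero]
        rw [← h2, hδ, ht]
        field_simp
      have h3 : α • m 0 + β • m 1 = 0 := by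
        by_contra hne'
        exact hne _ hne' h1
      rw [h3, zero_add] at hw
      have h4 := LinearIndependent.pair_iff.1 hm' 1 (-γ) (by
        rw [hw, one_smul, neg_smul, add_neg_cancel])
      exact one_ne_zero h4.1
    have hsu : u * (1 - s * algebraMap ℂ K γ) = s * δ := by
      have h1 : s * ev X m' = ev X (m 2) := by
        rw [hs]
        field_simp
      rw [hev', hMu] at h1
      have h2 : ev X (m 0) * (s * (algebraMap ℂ K γ * u + δ) - u) = 0 := by
        linear_combination h1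
      have h3 := (mul_eq_zero.1 h2).resolve_left hM0
      linear_combination -h3
    have hden : 1 - s * algebraMap ℂ K γ ≠ 0 := by
      intro h
      rw [h, mul_zero] at hsu
      exact mul_ne_zero hs0 hδ0 hsu.symm
    obtain ⟨L, hL⟩ : ∃ L, L = IntermediateField.adjoin ℂ (insert s (Set.range ![t])) := ⟨_, rfl⟩
    have htL' : t ∈ L := by
      rw [hL]
      exact IntermediateField.subset_adjoin _ _ (Or.inr ⟨0, rfl⟩)
    have hsL : s ∈ L := by
      rw [hL]
      exact IntermediateField.subset_adjoin _ _ (Or.inl rfl)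
    have hδL : δ ∈ L := by
      rw [hδ]
      exact add_mem (L.algebraMap_mem _) (mul_mem (L.algebraMap_mem _) htL')
    have huL : u ∈ L := by
      have h1 : u = s * δ / (1 - s * algebraMap ℂ K γ) := by
        rw [eq_div_iff hden, hsu]
      rw [h1]
      exact div_mem (mul_mem hsL hδL) (sub_mem (one_mem _) (mul_mem hsL (L.algebraMap_mem _)))
    rw [← hL]
    apply lin_mem' hX0 hne hm
    · rw [← ht]
      exact htL'
    · rw [← hu]
      exact huL

end

open scoped Classical in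
theorem t_RATTWO : S_RATTWO := by
  intro hAEV K _ _ X hX S d hcard hPw W hW hSW hnW hd
  obtain ⟨hne', -⟩ := hAEV K 2 X hX
  have hX0 : X 0 = 1 := hX.1
  have hne : ∀ v : V3, v ≠ 0 → ev (K := K) X v ≠ 0 := hne'
  have hF : ∏ l ∈ S, Pool.Agent.J4H13.PL.lf X l = ∏ l ∈ S, ev (K := K) X l := rfl
  rw [hF]
  have hS0 : ∀ v ∈ S, v ≠ 0 := by
    intro v hv
    obtain ⟨w, hw, hwv⟩ := Finset.exists_mem_ne (by omega : 1 < S.card) v
    exact (hPw v hv w hw (Ne.symm hwv)).ne_zero 0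
  -- a basis of `W`
  let B := Module.finBasisOfFinrankEq ℂ W hW
  obtain ⟨m₀, hm₀⟩ : ∃ m₀ : V3, m₀ = B 0 := ⟨_, rfl⟩
  obtain ⟨m₁, hm₁⟩ : ∃ m₁ : V3, m₁ = B 1 := ⟨_, rfl⟩
  have hind : LinearIndependent ℂ ![m₀, m₁] := by
    have h1 := B.linearIndependent.map' W.subtype W.ker_subtype
    have h2 : (![m₀, m₁] : Fin 2 → V3) = W.subtype ∘ B := by
      funext i
      fin_cases i
      · exact hm₀
      · exact hm₁
    rw [h2]
    exact h1
  have hWspan : W = Submodule.span ℂ {m₀, m₁} := by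
    symm
    apply Submodule.eq_of_le_of_finrank_le
    · rw [Submodule.span_le]
      rintro x (rfl | hx)
      · rw [hm₀]
        exact (B 0).2
      · rw [Set.mem_singleton_iff] at hx
        rw [hx, hm₁]
        exact (B 1).2
    · have h4 := finrank_span_eq_card hind
      have h5 : Set.range ![m₀, m₁] = {m₀, m₁} := by
        rw [Matrix.range_cons, Matrix.range_cons, Matrix.range_empty, Set.union_empty]
        rfl
      rw [h5, Fintype.card_fin] at h4
      rw [h4, hW]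
  obtain ⟨T, hT⟩ : ∃ T : Finset V3, T = S.filter fun l => l ∈ W := ⟨_, rfl⟩
  obtain ⟨R, hR⟩ : ∃ R : Finset V3, R = S.filter fun l => l ∉ W := ⟨_, rfl⟩
  have hTR : T.card + R.card = 2 * d := by
    rw [hT, hR, ← hcard]
    exact Finset.card_filter_add_card_filter_not _
  have hprod : ∏ l ∈ S, ev (K := K) X l = (∏ l ∈ T, ev (K := K) X l) * ∏ l ∈ R, ev (K := K) X l := by
    rw [hT, hR]
    exact (Finset.prod_filter_mul_prod_filter_not S _ _).symm
  have hT0 : ∀ v ∈ T, v ≠ 0 := by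
    intro v hv
    rw [hT, Finset.mem_filter] at hv
    exact hS0 v hv.1
  have hTs : ∀ v ∈ T, v ∈ Submodule.span ℂ {m₀, m₁} := by
    intro v hv
    rw [hT, Finset.mem_filter] at hv
    rw [← hWspan]
    exact hv.2
  have hRW : ∀ v ∈ R, v ∈ S ∧ v ∉ Submodule.span ℂ {m₀, m₁} := by
    intro v hv
    rw [hR, Finset.mem_filter] at hv
    rw [← hWspan]
    exact hv
  have hRne : 0 < R.card := by
    obtain ⟨v, hv, hvW⟩ := hnW
    rw [Finset.card_pos]
    exact ⟨v, by rw [hR, Finset.mem_filter]; exact ⟨hv, hvW⟩⟩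
  have hTc : 2 * d - 2 ≤ T.card := by
    rw [hT]
    exact hSW
  rcases (by omega : R.card = 1 ∨ R.card = 2) with h1 | h2
  · obtain ⟨k, hk⟩ := Finset.card_eq_one.1 h1
    have hkR := hRW k (by rw [hk]; exact Finset.mem_singleton_self k)
    rw [hprod, hk, Finset.prod_singleton]
    exact one' hX0 hne (d := d) (m := ![m₀, m₁, k]) (li_three hind hkR.2) T hT0 hTs (by omega)
  · obtain ⟨k, k', hkk, hk⟩ := Finset.card_eq_two.1 h2
    have hkR := hRW k (by rw [hk]; simp)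
    have hkR' := hRW k' (by rw [hk]; simp)
    rw [hprod, hk, Finset.prod_pair hkk]
    exact two' hX0 hne (d := d) (m := ![m₀, m₁, k]) (li_three hind hkR.2) T hT0 hTs (by omega)
      (hPw k' hkR'.1 k hkR.1 (Ne.symm hkk))

end Pool.Agent.J4H42.PL
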